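import Pool.Agent.W192.CY.Stn

/-! Project CY (helper192): orthogonality for the powers of a character with `χ ^ e = 1`. -/

set_option autoImplicit false

open Finset

namespace Pool.Agent.W230.CY

open Pool.Agent.W192.CY

lemma mem_Cg {q : ℕ} [NeZero q] {χ₀ χ : DirichletCharacter ℂ q} {e : ℕ} :
    χ ∈ Cg q χ₀ e ↔ χ ∈ Subgroup.zpowers χ₀ ∧ χ ^ e = 1 := by
  unfold Cg
  rw [Set.Finite.mem_toFinset]
  rfl

lemma card_Cg (q : ℕ) [NeZero q] (χ₀ : DirichletCharacter ℂ q) (e : ℕ) (he : e ∣ orderOf χ₀) :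
    (Cg q χ₀ e).card = e := by
  have hfin : Finite (DirichletCharacter ℂ q) := inferInstance
  have h1 := IsCyclic.card_powMonoidHom_ker (G := Subgroup.zpowers χ₀) e
  rw [Nat.card_zpowers, Nat.gcd_eq_right he] at h1
  have h2 : (Cg q χ₀ e).card =
      Nat.card {χ : DirichletCharacter ℂ q | χ ∈ Subgroup.zpowers χ₀ ∧ χ ^ e = 1} := by
    unfold Cg
    rw [Nat.card_coe_set_eq, Set.ncard_eq_toFinset_card _ (Set.toFinite _)]
  rw [h2]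
  conv_rhs => rw [← h1]
  refine Nat.card_congr ⟨fun z => ⟨⟨z.1, z.2.1⟩, ?_⟩, fun z => ⟨z.1.1, z.1.2, ?_⟩, ?_, ?_⟩
  · rw [MonoidHom.mem_ker]
    exact Subtype.ext z.2.2
  · have := z.2
    rw [MonoidHom.mem_ker] at this
    exact congrArg Subtype.val this
  · intro z
    rfl
  · intro z
    rfl

lemma sum_mem (q : ℕ) [NeZero q] (χ₀ : DirichletCharacter ℂ q) (e : ℕ) (he : e ∣ orderOf χ₀)
    (x : (ZMod q)ˣ) (hx : x ∈ Hg q χ₀ e) :
    ∑ χ ∈ Cg q χ₀ e, χ (x : ZMod q) = (e : ℂ) := by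
  rw [sum_congr rfl (fun χ hχ => hx χ (mem_Cg.1 hχ).1 (mem_Cg.1 hχ).2), sum_const,
    card_Cg q χ₀ e he]
  simp

lemma sum_not_mem (q : ℕ) [NeZero q] (χ₀ : DirichletCharacter ℂ q) (e : ℕ) (x : (ZMod q)ˣ)
    (hx : x ∉ Hg q χ₀ e) : ∑ χ ∈ Cg q χ₀ e, χ (x : ZMod q) = 0 := by
  have hx' : ¬ ∀ χ : DirichletCharacter ℂ q, χ ∈ Subgroup.zpowers χ₀ → χ ^ e = 1 →
    χ (x : ZMod q) = 1 := hx
  push Not at hx'
  obtain ⟨χ₁, hz, h0, h1⟩ := hx'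
  have h2 : ∑ χ ∈ Cg q χ₀ e, χ (x : ZMod q) = ∑ χ ∈ Cg q χ₀ e, (χ₁ * χ) (x : ZMod q) := by
    symm
    refine sum_bij' (fun χ _ => χ₁ * χ) (fun χ _ => χ₁⁻¹ * χ) ?_ ?_ ?_ ?_ ?_
    · intro χ hχ
      rw [mem_Cg] at hχ ⊢
      exact ⟨mul_mem hz hχ.1, by rw [mul_pow, h0, hχ.2, one_mul]⟩
    · intro χ hχ
      rw [mem_Cg] at hχ ⊢
      exact ⟨mul_mem (inv_mem hz) hχ.1, by rw [mul_pow, inv_pow, h0, hχ.2, inv_one, one_mul]⟩
    · intro χ _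
      rw [inv_mul_cancel_left]
    · intro χ _
      rw [mul_inv_cancel_left]
    · intro χ _
      rfl
  have h3 : ∑ χ ∈ Cg q χ₀ e, (χ₁ * χ) (x : ZMod q) =
      χ₁ (x : ZMod q) * ∑ χ ∈ Cg q χ₀ e, χ (x : ZMod q) := by
    rw [mul_sum]
    rfl
  rw [h3] at h2
  have h4 : (1 - χ₁ (x : ZMod q)) * ∑ χ ∈ Cg q χ₀ e, χ (x : ZMod q) = 0 := by
    linear_combination h2
  rcases mul_eq_zero.1 h4 with h | h
  · exact absurd (sub_eq_zero.1 h).symm h1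
  · exact h

lemma sum_units (q : ℕ) [NeZero q] (χ : DirichletCharacter ℂ q) :
    ∑ x : (ZMod q)ˣ, χ (x : ZMod q) = if χ = 1 then ((Nat.totient q : ℕ) : ℂ) else 0 := by
  split_ifs with h
  · subst h
    rw [← ZMod.card_units_eq_totient q]
    simp
  · obtain ⟨y, hy⟩ := MulChar.ne_one_iff.1 h
    have h2 : ∑ x : (ZMod q)ˣ, χ (x : ZMod q) = χ (y : ZMod q) * ∑ x : (ZMod q)ˣ, χ (x : ZMod q) := by
      rw [mul_sum, ← Equiv.sum_comp (Equiv.mulLeft y)]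
      apply sum_congr rfl
      intro x _
      rw [Equiv.coe_mulLeft, Units.val_mul, map_mul]
    have h4 : (1 - χ (y : ZMod q)) * ∑ x : (ZMod q)ˣ, χ (x : ZMod q) = 0 := by
      linear_combination h2
    rcases mul_eq_zero.1 h4 with h' | h'
    · exact absurd (sub_eq_zero.1 h').symm hy
    · exact h'

theorem t_orth : G_ORTH := by
  intro q hq χ₀ e he
  refine ⟨?_, fun x => ⟨sum_mem q χ₀ e he x, sum_not_mem q χ₀ e x⟩⟩
  classical
  have h1 : ∑ x : (ZMod q)ˣ, ∑ χ ∈ Cg q χ₀ e, χ (x : ZMod q) =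
      ((Nat.card (Hg q χ₀ e) : ℕ) : ℂ) * e := by
    have h2 : ∀ x : (ZMod q)ˣ, ∑ χ ∈ Cg q χ₀ e, χ (x : ZMod q) =
        if x ∈ Hg q χ₀ e then (e : ℂ) else 0 := by
      intro x
      split_ifs with h
      · exact sum_mem q χ₀ e he x h
      · exact sum_not_mem q χ₀ e x h
    rw [sum_congr rfl (fun x _ => h2 x), ← sum_filter, sum_const, nsmul_eq_mul]
    congr 2
    rw [Nat.card_eq_fintype_card, Fintype.card_subtype]
  have h3 : ∑ x : (ZMod q)ˣ, ∑ χ ∈ Cg q χ₀ e, χ (x : ZMod q) = ((Nat.totient q : ℕ) : ℂ) := by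
    rw [sum_comm, sum_congr rfl (fun χ _ => sum_units q χ), sum_ite_eq' (Cg q χ₀ e), if_pos]
    rw [mem_Cg]
    exact ⟨one_mem _, one_pow _⟩
  rw [h1] at h3
  have h4 : Nat.card (Hg q χ₀ e) * e = Nat.totient q := by exact_mod_cast h3
  rw [mul_comm]
  exact h4

end Pool.Agent.W230.CY
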